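import Pool.Agent.H18.SubG3

set_option autoImplicit false

namespace Pool.Agent.Results.MP_0d6f46_co.Counter
open H18.SubG

theorem result : ¬ ∀ S : Finset ℕ, S.Nonempty → 0 ∉ S → ∀ h : ℕ,
    ((o S false false h).1 ≤ (o S false true h).1 ∧ (o S false false h).1 ≤ (o S true false h).1) ∧
    ((o S false false h).2 ≤ (o S false true h).2 ∧ (o S false false h).2 ≤ (o S true false h).2) := by
  intro H
  have := (H {4, 7, 21, 23, 39} (by simp) (by simp) 98).2.1
  rw [vals.1, vals.2] at this
  omega

end Pool.Agent.Results.MP_0d6f46_co.Counter
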